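import Pool.Agent.Helper61.TQ.Core

set_option autoImplicit false

/-! NP predicates are closed under bounded conjunction. -/

namespace Pool.Agent.Helper61.TQ

open Pool.Agent.Helper58 Pool.Agent.Helper53.CL Pool.Agent.Helper52.Grid

/-- reading a list of words: state = pending bit, current word, words read -/
def NPALL_step (s : W × (W × List W)) (b : Bool) : W × (W × List W) :=
  lcase s.1 ([b], s.2) (fun c _ => ([], bif c then (s.2.1 ++ [b], s.2.2)
    else (([] : W), s.2.2 ++ [s.2.1])))

def NPALL_parse (z : W) : List W := (z.foldl NPALL_step ([], ([], []))).2.2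

/-- code of a list of words -/
def NPALL_code (ws : List W) : W :=
  ws.flatMap (fun w => w.flatMap (fun b => [true, b]) ++ [false, false])

lemma NPALL_word (w u : W) (vs : List W) :
    (w.flatMap (fun b => [true, b])).foldl NPALL_step ([], (u, vs)) = ([], (u ++ w, vs)) := by
  induction w generalizing u with
  | nil => simp
  | cons b w ih =>
    rw [List.flatMap_cons, List.foldl_append]
    have : [true, b].foldl NPALL_step ([], (u, vs)) = ([], (u ++ [b], vs)) := rfl
    rw [this, ih]; simp

lemma NPALL_words (ws vs : List W) :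
    (NPALL_code ws).foldl NPALL_step ([], ([], vs)) = ([], ([], vs ++ ws)) := by
  unfold NPALL_code
  induction ws generalizing vs with
  | nil => simp
  | cons w ws ih =>
    rw [List.flatMap_cons, List.foldl_append, List.foldl_append, NPALL_word]
    have : [false, false].foldl NPALL_step ([], (([] : W) ++ w, vs)) = ([], ([], vs ++ [w])) := rfl
    rw [this, ih]; simp

lemma NPALL_parse_code (ws : List W) : NPALL_parse (NPALL_code ws) = ws := by
  unfold NPALL_parse
  rw [NPALL_words]; simp

theorem NPALL_ptf {γ : Type} [Enc γ] {z : γ → W} (hz : PTf z) :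
    PTf (fun x => NPALL_parse (z x)) := by
  unfold NPALL_parse
  have h := ptf_foldl_add (γ := γ) (l := z)
    (init := fun _ => (([] : W), (([] : W), ([] : List W))))
    (step := fun _ s a => NPALL_step s a) (K := fun _ => 10) hz (PTf.const _) ?_ (PB.const _) ?_
  · exact PTf.snd (PTf.snd h)
  · unfold NPALL_step
    fun_prop
  · rintro x ⟨p, v, vs⟩ a _
    have h3 : ∀ (v : W) (c : Bool), sz (v ++ [c]) ≤ sz v + 4 := by
      intro v c
      have h4 := sz_append v [c]
      rw [sz_lcons, sz_lnil] at h4
      have := sz_bool c
      omega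
    cases p with
    | nil =>
      have e : NPALL_step ([], (v, vs)) a = ([a], (v, vs)) := rfl
      rw [e]
      simp only [sz_pair, sz_lcons, sz_lnil]
      have := sz_bool a
      omega
    | cons c p =>
      have hp := sz_pos (c :: p)
      cases c
      · have e : NPALL_step (false :: p, (v, vs)) a = ([], ([], vs ++ [v])) := rfl
        rw [e, sz_pair, sz_pair, sz_pair, sz_pair, sz_lnil]
        have h4 := sz_append vs [v]
        rw [sz_lcons, sz_lnil] at h4
        have h5 : sz ([] : W) = 1 := rfl
        omega
      · have e : NPALL_step (true :: p, (v, vs)) a = ([], (v ++ [a], vs)) := rfl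
        rw [e, sz_pair, sz_pair, sz_pair, sz_pair, sz_lnil]
        have := h3 v a
        omega

section zip

variable {α β γ : Type} [Enc α] [Enc β] [Enc γ]

lemma NPALL_sz_zip (l : List α) (m : List β) : sz (l.zip m) ≤ sz l + sz m := by
  induction l generalizing m with
  | nil => simp [sz_lnil]
  | cons a l ih =>
    cases m with
    | nil => simp [sz_lnil]
    | cons b m =>
      rw [List.zip_cons_cons, sz_lcons, sz_lcons, sz_lcons, sz_pair]
      have := ih m
      omega

def NPALL_zs (s : List (α × β) × List β) (a : α) : List (α × β) × List β :=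
  lcase s.2 (s.1, []) (fun b t => (s.1 ++ [(a, b)], t))

omit [Enc α] [Enc β] in
lemma NPALL_zs_fold (l : List α) (m : List β) (acc : List (α × β)) :
    l.foldl NPALL_zs (acc, m) = (acc ++ l.zip m, m.drop l.length) := by
  induction l generalizing m acc with
  | nil => simp
  | cons a l ih =>
    rw [List.foldl_cons]
    cases m with
    | nil => simp [NPALL_zs, lcase, ih]
    | cons b m => simp [NPALL_zs, lcase, ih]

theorem NPALL_zip {l : γ → List α} {m : γ → List β} (hl : PTf l) (hm : PTf m) :
    PTf (fun x => (l x).zip (m x)) := by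
  have := PTf.foldl (step := fun _ s a => NPALL_zs s a) (init := fun x => (([] : List (α × β)), m x))
    (B := fun x => sz (l x) + sz (m x) + sz (m x) + 1) hl (by fun_prop)
    (by unfold NPALL_zs; fun_prop)
    (((hl.sz_le.add hm.sz_le).add hm.sz_le).add (PB.const 1)) (by
      intro x i
      rw [NPALL_zs_fold, sz_pair, List.nil_append]
      have h1 := NPALL_sz_zip ((l x).take i) (m x)
      have h2 := sz_take_le (l x) i
      have h3 := sz_drop_le (m x) ((l x).take i).length
      omega)
  exact (PTf.fst this).congr (fun x => by rw [NPALL_zs_fold]; simp)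

end zip

lemma NPALL_code_cons (w : W) (ws : List W) :
    (NPALL_code (w :: ws)).length = 2 * w.length + 2 + (NPALL_code ws).length := by
  unfold NPALL_code
  have h : (w.flatMap (fun b => [true, b])).length = 2 * w.length := by
    induction w with
    | nil => rfl
    | cons b w ih => rw [List.flatMap_cons, List.length_append, ih]; simp; ring
  rw [List.flatMap_cons, List.length_append, List.length_append, h]
  rfl

theorem st_NPALL : ST_NPALL := by
  intro α β _ _ L l ⟨V, B, hV, hB, hs, hc⟩ hl
  have hB' : PTf (fun a => ((l a).map (fun x => 2 * B (a, x) + 2)).sum) := by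
    have h1 : PTf (fun p : α × β => B (p.1, p.2)) := hB
    have h2 : PTf (fun p : α × β => 2 * B (p.1, p.2) + 2) := by fun_prop
    exact ptf_sum (PTf.map hl h2)
  have hV' : PTf (fun x : α × W => (decide ((NPALL_parse x.2).length = (l x.1).length)) &&
      ((l x.1).zip (NPALL_parse x.2)).all (fun p => V (x.1, p.1) p.2)) := by
    have h0 : PTf (fun x : α × W => NPALL_parse x.2) := NPALL_ptf (by fun_prop)
    have h1 : PTf (fun x : α × W => l x.1) := PTf.comp hl (by fun_prop)
    have h2 : PTf (fun p : (α × W) × (β × W) => V (p.1.1, p.2.1) p.2.2) :=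
      PTf.comp hV (f := fun p : (α × W) × (β × W) => ((p.1.1, p.2.1), p.2.2)) (by fun_prop)
    exact PTf.and (PTf.decEq (PTf.length h0) (PTf.length h1)) (PTf.all (NPALL_zip h1 h0) h2)
  refine ⟨fun a z => (decide ((NPALL_parse z).length = (l a).length)) &&
      ((l a).zip (NPALL_parse z)).all (fun p => V (a, p.1) p.2),
    fun a => ((l a).map (fun x => 2 * B (a, x) + 2)).sum, hV', hB', ?_, ?_⟩
  · intro a z hz x hx
    rw [Bool.and_eq_true, decide_eq_true_iff, List.all_eq_true] at hz
    obtain ⟨h1, h2⟩ := hz
    obtain ⟨i, hi, hxi⟩ := List.getElem_of_mem hx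
    have hi' : i < (NPALL_parse z).length := by omega
    have h3 : ((l a)[i], (NPALL_parse z)[i]) ∈ (l a).zip (NPALL_parse z) := by
      have h4 : i < ((l a).zip (NPALL_parse z)).length := by
        rw [List.length_zip]; omega
      have h5 : ((l a).zip (NPALL_parse z))[i] = ((l a)[i], (NPALL_parse z)[i]) :=
        List.getElem_zip
      rw [← h5]
      exact List.getElem_mem _
    have h6 := h2 _ h3
    have h7 := hs _ _ h6
    simp only at h7
    rw [hxi] at h7
    exact h7
  · intro a ha
    have key : ∀ m : List β, (∀ x ∈ m, L a x) → ∃ ws : List W, ws.length = m.length ∧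
        (NPALL_code ws).length ≤ (m.map (fun x => 2 * B (a, x) + 2)).sum ∧
        (m.zip ws).all (fun p => V (a, p.1) p.2) = true := by
      intro m
      induction m with
      | nil => intro _; exact ⟨[], rfl, by simp [NPALL_code], rfl⟩
      | cons x m ih =>
        intro hm
        obtain ⟨ws, h1, h2, h3⟩ := ih (fun y hy => hm y (List.mem_cons_of_mem _ hy))
        obtain ⟨w, hw1, hw2⟩ := hc (a, x) (hm x List.mem_cons_self)
        refine ⟨w :: ws, by simp [h1], ?_, ?_⟩
        · rw [NPALL_code_cons, List.map_cons, List.sum_cons]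
          omega
        · rw [List.zip_cons_cons, List.all_cons, Bool.and_eq_true]
          exact ⟨hw2, h3⟩
    obtain ⟨ws, h1, h2, h3⟩ := key (l a) ha
    refine ⟨NPALL_code ws, h2, ?_⟩
    rw [Bool.and_eq_true, decide_eq_true_iff, NPALL_parse_code]
    exact ⟨h1, h3⟩

end Pool.Agent.Helper61.TQ
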